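import Mathlib
import Pool.Agent.U147.AA.Main

/-!
# Holomorphic maps of bounded complexity from arbitrary plane domains to general hypersurfaces

Let `d ≥ 2 n + 2` and let `X` be a general hypersurface of degree `d` in the projective space of
dimension `n + 1`. We consider the holomorphic maps from an ARBITRARY plane domain `U` to `X` (not only
entire curves) whose homogeneous coordinates are given, on some open subset, by `s` successive linear
systems of differential equations of size `r`, with coefficients of bounded degree which are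
polynomials in `z`, `1 / q(z)` and the solutions of the systems before: the maps of complexity at most
`(s, r, e, δ)`. So the coordinates may contain exponentials, logarithms, powers with arbitrary
exponents, Airy, Bessel and hypergeometric functions, integrals and compositions of these with
exponentials, and so on. There is a number `N` and a Zariski open set of hypersurfaces (both depend on
`n`, `d` and the complexity only) such that for all these maps to a hypersurface `X` in this set:

* the map is algebraic: all ratios of the coordinates satisfy an equation over `ℂ[z]` of degree and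
  height at most `N` on all of `U`. So every analytic arc in `X` of this kind is algebraic;
* the big Picard theorem: the map extends holomorphically to all isolated points of the complement
  of `U`;
* if the complement of `U` consists of isolated points (for instance if `U` is the complement of an
  arbitrary closed discrete set), then the map is constant.

The same holds for the general intersections `X` of hypersurfaces minus general hypersurfaces, for
instance for the complement of a general hypersurface of degree `2 n + 1` in `ℙ ^ n`; in this case the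
maps from the domains `U` the complement of which consists of isolated points are given by polynomials
of degree at most `N`, and they are constant if the complement of `U` is empty or a point.

The starting result `DifferentialCurves` is the case of the entire curves in hypersurfaces. The proof
of the first part is in the library (`V1153.UG`, `V1153.GH`, `U178.KD`); the extension to isolated
singularities, the rationality with the bound `N` for maps which are defined outside of a discrete
set, and the last part are in `U147.AA`.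
-/

set_option autoImplicit false

namespace Pool.Agent.Results.MP_b509a1_ag.AlgebraicArcs

open MvPolynomial Metric
open Pool.Agent.V1153.UG (IterSys Vx vec pev pair_poly)

variable {n q : ℕ}

/-- a holomorphic map, with the homogeneous coordinates `f`, from the domain `U` in the complex plane
to `X = {F_i = 0, i ∈ Z} \ ⋃_{i ∉ Z} {F_i = 0}` -/
structure HolMap (F : Fin q → MvPolynomial (Fin (n + 1)) ℂ) (Z : Finset (Fin q)) (U : Set ℂ)
    (f : ℂ → Fin (n + 1) → ℂ) : Prop where
  opn : IsOpen U
  con : IsPreconnected U
  diff : DifferentiableOn ℂ f U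
  ne : ∀ z ∈ U, f z ≠ 0
  mem : ∀ z ∈ U, ∀ i ∈ Z, eval (f z) (F i) = 0
  off : ∀ z ∈ U, ∀ i ∉ Z, eval (f z) (F i) ≠ 0

/-- The map `f` on `U` is of complexity at most `(s, r, e, δ)`: on some nonempty open subset of `U`
it has homogeneous coordinates `h_j = g f_j` such that the `h_j` and `1 / Q(h)`, where `Q` is the
product of the `F_i` with `i ∉ Z` (`Q = 1` if there are none), are polynomials of degree at most `e`
in each of the variables `z`, `1 / q(z)` and the entries of `y_1, ..., y_s`, where `q` and the vector
functions `y_1, ..., y_s` of length `r` are as in `IterSys`. -/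
def Complexity (F : Fin q → MvPolynomial (Fin (n + 1)) ℂ) (Z : Finset (Fin q)) (s r e δ : ℕ)
    (U : Set ℂ) (f : ℂ → Fin (n + 1) → ℂ) : Prop :=
  ∃ (V : Set ℂ) (q : Polynomial ℂ) (y : Fin s → Fin r → ℂ → ℂ) (g : ℂ → ℂ), IsOpen V ∧
    V.Nonempty ∧ V ⊆ U ∧ IterSys s r e δ V q y ∧ (∀ z ∈ V, g z ≠ 0) ∧
    (∀ j, ∃ c : (Vx s r → Fin (e + 1)) → ℂ, ∀ z ∈ V,
      g z * f z j = pev c (vec z (q.eval z)⁻¹ fun l a => y l a z)) ∧
    ∃ c : (Vx s r → Fin (e + 1)) → ℂ, ∀ z ∈ V,
      pev c (vec z (q.eval z)⁻¹ fun l a => y l a z) *
        eval (fun j => g z * f z j) (∏ i ∈ Finset.univ \ Z, F i) = 1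

/-- The ratio of the functions `u` and `v` on `U` is algebraic of degree and height at most `N`: for
some `m ≤ N` there is an equation `∑ β, p_β(z) u(z)^β v(z)^(m - β) = 0` on `U` with polynomials `p_β` of
degree at most `m`, not all zero. -/
def AlgebraicRatio (N : ℕ) (U : Set ℂ) (u v : ℂ → ℂ) : Prop :=
  ∃ m ≤ N, ∃ p : Fin (m + 1) → Polynomial ℂ, (∃ β, p β ≠ 0) ∧ (∀ β, (p β).natDegree ≤ m) ∧
    ∀ z ∈ U, ∑ β : Fin (m + 1), (p β).eval z * u z ^ (β : ℕ) * v z ^ (m - β) = 0

/-- The map `f`, defined in the punctured disc with the centre `a` and the radius `ρ`, extends to a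
holomorphic map from the disc to the projective space. -/
def ExtendsTo (f : ℂ → Fin (n + 1) → ℂ) (a : ℂ) (ρ : ℝ) : Prop :=
  ∃ g : ℂ → Fin (n + 1) → ℂ, DifferentiableOn ℂ g (ball a ρ) ∧ (∀ z ∈ ball a ρ, g z ≠ 0) ∧
    ∀ z ∈ ball a ρ \ {a}, ∃ c : ℂ, f z = c • g z

/-- The map `f` on `U` is given by polynomials `P_j` of degree at most `N` without common zeros. -/
def IsRational (N : ℕ) (U : Set ℂ) (f : ℂ → Fin (n + 1) → ℂ) : Prop :=
  ∃ P : Fin (n + 1) → Polynomial ℂ, (∀ j, (P j).natDegree ≤ N) ∧ (∀ z, ∃ j, (P j).eval z ≠ 0) ∧
    ∀ z ∈ U, ∃ c : ℂ, c ≠ 0 ∧ ∀ j, f z j = c * (P j).eval z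

/-- Let `d_1, ..., d_q` be degrees and let `Z` be a set of indices with `∑ d_i + |Z| ≥ 2 n + 1`; for
instance `q = 1`, `Z = {1}` and `d_1 ≥ 2 n`: the hypersurfaces of degree `d ≥ 2 m + 2` in the projective
space of dimension `n = m + 1`, as in the question; or `q = 1`, `Z` empty and `d_1 ≥ 2 n + 1`.

For all `s`, `r`, `e` and `δ` there are a number `N` and a nonzero polynomial `Φ` in the coefficients
of `q` forms of these degrees in `n + 1` variables such that for all forms `F_1, ..., F_q` at which `Φ`
does not vanish, all domains `U` in the complex plane and all holomorphic maps `f` from `U` to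
`X = {F_i = 0, i ∈ Z} \ ⋃_{i ∉ Z} {F_i = 0}` of complexity at most `(s, r, e, δ)`: the ratios of the
coordinates of `f` are algebraic of degree and height at most `N`; `f` extends to every disc the
punctured disc of which is in `U`; if all points which are not in `U` are isolated, `f` is given by
polynomials of degree at most `N`; and in this case `f` is constant if `X` is closed (`Z` contains all
indices), or if at most one point is not in `U`. -/
theorem result (n q : ℕ) (d : Fin q → ℕ) (Z : Finset (Fin q)) (hZ : 2 * n + 1 ≤ ∑ i, d i + Z.card)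
    (s r e δ : ℕ) :
    ∃ (N : ℕ) (Φ : MvPolynomial ((i : Fin q) × {α : Fin (n + 1) →₀ ℕ // α.degree = d i}) ℂ),
      Φ ≠ 0 ∧ ∀ F : Fin q → MvPolynomial (Fin (n + 1)) ℂ, (∀ i, (F i).IsHomogeneous (d i)) →
        eval (fun x => coeff x.2.1 (F x.1)) Φ ≠ 0 → ∀ (U : Set ℂ) (f : ℂ → Fin (n + 1) → ℂ),
          HolMap F Z U f → Complexity F Z s r e δ U f →
          (∀ j l, AlgebraicRatio N U (fun z => f z j) fun z => f z l) ∧
          (∀ (a : ℂ) (ρ : ℝ), 0 < ρ → ball a ρ \ {a} ⊆ U → ExtendsTo f a ρ) ∧
          ((∀ a ∉ U, ∃ ρ : ℝ, 0 < ρ ∧ ball a ρ \ {a} ⊆ U) → IsRational N U f) ∧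
          ((Z = Finset.univ ∧ ∀ a ∉ U, ∃ ρ : ℝ, 0 < ρ ∧ ball a ρ \ {a} ⊆ U) ∨
              (∃ a : ℂ, ∀ z, z ≠ a → z ∈ U) → ∀ z ∈ U, ∀ w ∈ U, ∃ c : ℂ, f w = c • f z) := by
  obtain ⟨N, Φ, hΦ, h⟩ := Pool.Agent.U147.AA.main (n := n) d Z hZ s r e δ
  refine ⟨N, Φ, hΦ, fun F hF hFΦ U f hf hb => ?_⟩
  obtain ⟨h1, h2, h3, h4⟩ := h F hF hFΦ U f ⟨hf.opn, hf.con, hf.diff, hf.ne, by
    rintro z hz _ ⟨i, hi, rfl⟩
    exact hf.mem z hz i hi, fun z hz => by
    rw [map_prod]
    exact Finset.prod_ne_zero_iff.2 fun i hi => hf.off z hz i (Finset.mem_sdiff.1 hi).2⟩ hb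
  refine ⟨fun j l => ?_, h2, h3, h4⟩
  obtain ⟨m, hm, c, hc, hcz⟩ := h1 j l
  obtain ⟨p, hp1, hp2, hp3⟩ := pair_poly c hc
  refine ⟨m, hm, p, hp1, hp2, fun z hz => ?_⟩
  rw [← hp3]
  exact hcz z hz

end Pool.Agent.Results.MP_b509a1_ag.AlgebraicArcs
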