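import Mathlib
import Pool.Agent.V1153.GH.Cst
import Pool.Agent.V1153.XS.Mv

/-!
# General hypersurfaces contain no entire curves given by exponential sums of bounded length

Let `d ≥ 2 n + 2`. For all `r` and `δ` a general hypersurface `X` of degree `d` in the projective space
of dimension `n + 1` has the following property: every entire curve in `X`, and every holomorphic map
from `ℂ ^ k` to `X` for any `k`, whose homogeneous coordinates are sums of at most `r` products `p e ^ g`,
with polynomials `p` of degree at most `δ` and *arbitrary* entire functions `g` (of any growth), is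
constant. The same holds for general intersections of hypersurfaces and for the complements of general
hypersurfaces in them.

The starting result `DifferentialCurves` of this problem treats entire curves given by iterated linear
differential equations; they are built from constants and satisfy algebraic differential equations,
and the coefficients of the equations are of bounded degree. Here the exponents are arbitrary.

Proof. Through every point of the image of such a map passes the image of a morphism from the
multiplicative group, of a degree bounded in terms of `n`, the degrees, `r` and `δ` (library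
`Pool.Agent.V1153.XS`: the theorem of Borel and a choice of one-parameter groups of bounded weights),
and a general member contains no such image (library `Pool.Agent.V1153.GH`).
-/

set_option autoImplicit false

namespace Pool.Agent.Results.MP_b509a1_ag.ExponentialSumMaps

open MvPolynomial Pool.Agent.V1153.UG

variable {n : ℕ}

/-- The function `f` on `ℂ ^ k` is a sum of `r` functions `p e ^ g` with a polynomial `p` of degree at
most `δ` and an entire function `g`. -/
def ExponentialSum (k r δ : ℕ) (f : (Fin k → ℂ) → ℂ) : Prop :=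
  ∃ (p : Fin r → MvPolynomial (Fin k) ℂ) (g : Fin r → (Fin k → ℂ) → ℂ),
    (∀ i, (p i).totalDegree ≤ δ ∧ Differentiable ℂ (g i)) ∧
    ∀ z, f z = ∑ i, eval z (p i) * Complex.exp (g i z)

/-- The vector `f` of entire functions without common zeros gives a constant map to the projective
space. -/
def ConstantMap {k : ℕ} (f : (Fin k → ℂ) → Fin (n + 1) → ℂ) : Prop :=
  ∀ z, ∃ c : ℂ, f z = c • f 0

theorem const_of {k : ℕ} {f : (Fin k → ℂ) → Fin (n + 1) → ℂ} (h0 : ∀ z, f z ≠ 0)
    (h : ¬ ∃ z w j l, f z j * f w l ≠ f z l * f w j) : ConstantMap f := by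
  intro z
  push Not at h
  obtain ⟨l, hl⟩ := Function.ne_iff.1 (h0 0)
  have hl' : f 0 l ≠ 0 := hl
  refine ⟨f z l / f 0 l, funext fun j => ?_⟩
  rw [Pi.smul_apply, smul_eq_mul, div_mul_eq_mul_div, eq_div_iff hl']
  exact h z 0 j l

/-- Let `d_1, ..., d_q` be degrees and let `Z` be a set of indices with `∑ d_i + |Z| ≥ 2 n + 1`; for
instance `q = 1`, `Z = {1}` and `d_1 ≥ 2 n`: the hypersurfaces of degree `d ≥ 2 m + 2` in the projective
space of dimension `n = m + 1`, as in the question.

For all `r` and `δ` there is a nonzero polynomial `Φ` in the coefficients of `q` forms of these degrees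
in `n + 1` variables such that for all forms `F_1, ..., F_q` at which `Φ` does not vanish the following
holds. Let `k` be a number and `f` a vector of `n + 1` entire functions on `ℂ ^ k` without common zeros,
with `F_i (f) = 0` for `i ∈ Z`, and such that `F_i (f)` has no zeros for `i ∉ Z`. If all the
coordinates of `f` are sums of `r` functions `p e ^ g` with polynomials `p` of degree at most `δ` and
entire functions `g`, then `f` gives a constant map. -/
theorem result (n q : ℕ) (d : Fin q → ℕ) (Z : Finset (Fin q)) (hZ : 2 * n + 1 ≤ ∑ i, d i + Z.card)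
    (r δ : ℕ) :
    ∃ Φ : MvPolynomial ((i : Fin q) × {α : Fin (n + 1) →₀ ℕ // α.degree = d i}) ℂ, Φ ≠ 0 ∧
      ∀ F : Fin q → MvPolynomial (Fin (n + 1)) ℂ, (∀ i, (F i).IsHomogeneous (d i)) →
        eval (fun x => coeff x.2.1 (F x.1)) Φ ≠ 0 →
        ∀ (k : ℕ) (f : (Fin k → ℂ) → Fin (n + 1) → ℂ), (∀ j, Differentiable ℂ fun z => f z j) →
          (∀ z, f z ≠ 0) → (∀ i ∈ Z, ∀ z, eval (f z) (F i) = 0) →
          (∀ i ∉ Z, ∀ z, eval (f z) (F i) ≠ 0) → (∀ j, ExponentialSum k r δ fun z => f z j) →
          ConstantMap f := by
  classical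
  obtain ⟨N, hN⟩ := Pool.Agent.V1153.XS.map_point n (∑ i, d i) r δ
  obtain ⟨Φ, hΦ, h⟩ := Pool.Agent.V1153.GH.general (n := n) d Z hZ N
  refine ⟨Φ, hΦ, fun F hF hFΦ k f hd h0 hin hout he => const_of h0 fun hnc => ?_⟩
  have hdeg : DegLe (∑ i, d i) {G | ∃ i ∈ Z, G = F i} (∏ i ∈ Finset.univ \ Z, F i) := by
    refine ⟨?_, ⟨∑ i ∈ Finset.univ \ Z, d i, ?_, ?_⟩⟩
    · rintro G ⟨i, -, rfl⟩
      exact ⟨d i, Finset.single_le_sum (fun _ _ => Nat.zero_le _) (Finset.mem_univ i), hF i⟩
    · exact Finset.sum_le_sum_of_subset (Finset.subset_univ _)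
    · exact IsHomogeneous.prod _ _ _ fun i _ => hF i
  have hmap : Pool.Agent.V1153.XS.Map k (Ideal.span {G | ∃ i ∈ Z, G = F i})
      (∏ i ∈ Finset.univ \ Z, F i) f := by
    refine ⟨hd, h0, fun z G hG _ => ?_, fun z => ?_, hnc⟩
    · have h3 : Ideal.span {G | ∃ i ∈ Z, G = F i} ≤ RingHom.ker (eval (f z)) := by
        rw [Ideal.span_le]
        rintro G ⟨i, hi, rfl⟩
        exact hin i hi z
      exact h3 hG
    · rw [map_prod]
      refine Finset.prod_ne_zero_iff.2 fun i hi => hout i (fun h => ?_) z
      exact (Finset.mem_sdiff.1 hi).2 h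
  obtain ⟨P, hP, -⟩ := hN _ _ hdeg k f hmap he 0
  exact h F hF hFΦ P hP

end Pool.Agent.Results.MP_b509a1_ag.ExponentialSumMaps
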