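import Mathlib
import Pool.Agent.U178.KD.Gen

/-!
# The infinitesimal Kobayashi metric of general hypersurfaces for maps of bounded complexity

Let `d ≥ 2 n + 2`. A general hypersurface `X` of degree `d` in the projective space of dimension
`n + 1` is hyperbolic for the maps of complexity at most `(s, r, e, δ)`, in the quantitative form of
Kobayashi's metric: `|f'(a)| ≤ C / R` for all holomorphic maps `f` of this complexity from a domain in
the complex plane which contains the disc with the centre `a` and the radius `R` to `X`. Here the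
derivative is measured with the Fubini-Study metric, and the constant `C` is locally uniform in the
hypersurface, in the Zariski open set of the general hypersurfaces. The same holds for the general
intersections of hypersurfaces, minus general hypersurfaces, which are hyperbolically embedded for
these maps; for instance for the complement of a general hypersurface of degree `2 n + 1` in `ℙ ^ n`.

A map is of bounded complexity if, on some nonempty open set, it has homogeneous coordinates which
are polynomials in `z`, `1 / q(z)` and the solutions of `s` successive linear systems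
`y_l' = A_l y_l`, of size `r`, where the entries of `A_l` are polynomials in `z`, `1 / q(z)` and the
entries of `y_1, ..., y_{l-1}`.

Proof. The strata of general configurations of hypersurfaces contain no curves of the punctured line
of bounded degree (library `V1153.GH`: the theorem of Clemens, Ein, Voisin, Pacienza, Rousseau for
bounded degrees). Maps of bounded complexity are then algebraic of bounded degree (library
`V1153.UG`). If there were no bound for the derivatives, a reparametrization by affine maps (Brody,
Zalcman) would give a nonconstant entire curve as a limit, for a limit of the hypersurfaces; by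
Hurwitz' theorem it lies in one of the strata, and the equations for the algebraic functions,
normalized, have a limit too, so that it is a curve of bounded degree in this stratum.
-/

set_option autoImplicit false

namespace Pool.Agent.Results.MP_b509a1_ag.KobayashiMetric

open MvPolynomial Metric
open Pool.Agent.NH31.KR (fubini)
open Pool.Agent.V1153.UG (IterSys Vx vec pev Bdd)
open Pool.Agent.U178.KD (general_kob OnDom)

variable {n q : ℕ}

/-- a holomorphic map, with the homogeneous coordinates `f`, from the domain `U` in the complex plane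
to `X = {F_i = 0, i ∈ Z} \ ⋃_{i ∉ Z} {F_i = 0}` -/
structure HolMap (F : Fin q → MvPolynomial (Fin (n + 1)) ℂ) (Z : Finset (Fin q)) (U : Set ℂ)
    (f : ℂ → Fin (n + 1) → ℂ) : Prop where
  opn : IsOpen U
  con : IsPreconnected U
  diff : DifferentiableOn ℂ f U
  ne : ∀ z ∈ U, f z ≠ 0
  mem : ∀ z ∈ U, ∀ i ∈ Z, eval (f z) (F i) = 0
  off : ∀ z ∈ U, ∀ i ∉ Z, eval (f z) (F i) ≠ 0

/-- The map `f` on `U` is of complexity at most `(s, r, e, δ)`: on some nonempty open subset of `U`
it has homogeneous coordinates `h_j = g f_j` such that the `h_j` and `1 / Q(h)`, where `Q` is the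
product of the `F_i` with `i ∉ Z` (`Q = 1` if there are none), are polynomials of degree at most `e`
in each of the variables `z`, `1 / q(z)` and the entries of `y_1, ..., y_s`, where `q` and the vector
functions `y_1, ..., y_s` of length `r` are as in `IterSys`. -/
def Complexity (F : Fin q → MvPolynomial (Fin (n + 1)) ℂ) (Z : Finset (Fin q)) (s r e δ : ℕ)
    (U : Set ℂ) (f : ℂ → Fin (n + 1) → ℂ) : Prop :=
  ∃ (V : Set ℂ) (q : Polynomial ℂ) (y : Fin s → Fin r → ℂ → ℂ) (g : ℂ → ℂ), IsOpen V ∧
    V.Nonempty ∧ V ⊆ U ∧ IterSys s r e δ V q y ∧ (∀ z ∈ V, g z ≠ 0) ∧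
    (∀ j, ∃ c : (Vx s r → Fin (e + 1)) → ℂ, ∀ z ∈ V,
      g z * f z j = pev c (vec z (q.eval z)⁻¹ fun l a => y l a z)) ∧
    ∃ c : (Vx s r → Fin (e + 1)) → ℂ, ∀ z ∈ V,
      pev c (vec z (q.eval z)⁻¹ fun l a => y l a z) *
        eval (fun j => g z * f z j) (∏ i ∈ Finset.univ \ Z, F i) = 1

/-- The infinitesimal Kobayashi pseudometric of `X = {F_i = 0, i ∈ Z} \ ⋃_{i ∉ Z} {F_i = 0}` for the
maps of complexity at most `(s, r, e, δ)` is at least `1 / C` times the Fubini-Study metric: for all
holomorphic maps `f` of this complexity from a domain `U` to `X`, the derivative of `f` at `a` is at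
most `C / R` if the disc with the centre `a` and the radius `R` is in `U`. -/
def KobayashiBound (F : Fin q → MvPolynomial (Fin (n + 1)) ℂ) (Z : Finset (Fin q)) (s r e δ : ℕ)
    (C : ℝ) : Prop :=
  ∀ (U : Set ℂ) (f : ℂ → Fin (n + 1) → ℂ), HolMap F Z U f → Complexity F Z s r e δ U f →
    ∀ (a : ℂ) (R : ℝ), 0 < R → ball a R ⊆ U → R * fubini (f a) (deriv f a) ≤ C

/-- Let `d_1, ..., d_q` be degrees and let `Z` be a set of indices with `∑ d_i + |Z| ≥ 2 n + 1`; for
instance `q = 1`, `Z = {1}` and `d_1 ≥ 2 n`: the hypersurfaces of degree `d ≥ 2 m + 2` in the projective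
space of dimension `n = m + 1`, as in the question; or `q = 1`, `Z` empty and `d_1 ≥ 2 n + 1`.

For all `s`, `r`, `e` and `δ` there is a nonzero polynomial `Φ` in the coefficients of `q` forms of
these degrees in `n + 1` variables such that for every compact set `𝒦` of vectors of coefficients at
which `Φ` does not vanish there is a number `C` such that for all forms `F_1, ..., F_q` with
coefficients in `𝒦` the infinitesimal Kobayashi pseudometric of
`X = {F_i = 0, i ∈ Z} \ ⋃_{i ∉ Z} {F_i = 0}` for the maps of complexity at most `(s, r, e, δ)` is at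
least `1 / C` times the Fubini-Study metric. -/
theorem result (n q : ℕ) (d : Fin q → ℕ) (Z : Finset (Fin q)) (hZ : 2 * n + 1 ≤ ∑ i, d i + Z.card)
    (s r e δ : ℕ) :
    ∃ Φ : MvPolynomial ((i : Fin q) × {α : Fin (n + 1) →₀ ℕ // α.degree = d i}) ℂ, Φ ≠ 0 ∧
      ∀ 𝒦 : Set ((i : Fin q) × {α : Fin (n + 1) →₀ ℕ // α.degree = d i} → ℂ), IsCompact 𝒦 →
        (∀ x ∈ 𝒦, eval x Φ ≠ 0) → ∃ C : ℝ, ∀ F : Fin q → MvPolynomial (Fin (n + 1)) ℂ,
          (∀ i, (F i).IsHomogeneous (d i)) → (fun x => coeff x.2.1 (F x.1)) ∈ 𝒦 →
            KobayashiBound F Z s r e δ C := by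
  obtain ⟨Φ, hΦ, h⟩ := general_kob (n := n) d Z hZ s r e δ
  refine ⟨Φ, hΦ, fun 𝒦 h𝒦 hne => ?_⟩
  obtain ⟨C, hC⟩ := h 𝒦 h𝒦 hne
  refine ⟨C, fun F hF hx U f hf hb a R hR hU => ?_⟩
  refine hC F hF hx U f ⟨hf.opn, hf.con, hf.diff, hf.ne, ?_, fun z hz => ?_⟩ hb a R hR hU
  · rintro z hz _ ⟨i, hi, rfl⟩
    exact hf.mem z hz i hi
  · rw [map_prod]
    exact Finset.prod_ne_zero_iff.2 fun i hi => hf.off z hz i (Finset.mem_sdiff.1 hi).2

end Pool.Agent.Results.MP_b509a1_ag.KobayashiMetric
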