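import Mathlib
import Pool.Agent.U178.WF.Dich
import Pool.Agent.U178.WF.Rat
import Pool.Agent.V1153.GH.Gen

/-!
# An inequality for all entire curves in general hypersurfaces of degree at least `2 n + 2`

Let `d ≥ 2 n + 2`. There are **one** number `C` and a nonempty Zariski open set of hypersurfaces of
degree `d` in the projective space of dimension `n + 1` such that **every** entire curve `f` in
**every** hypersurface of this set satisfies

`T(r) ≤ C (N₁(W, r) + log r)`

for all `r ≥ 1` outside a set of finite measure. Here `T` is the characteristic function of `f`, `W` is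
the Wronskian determinant of a basis of the linear span of the homogeneous coordinates of `f`, and
`N₁(W, r)` is the counting function of its zeros in which every zero is counted once. There is no
condition on the growth of `f`. Moreover, for every `k`, a general hypersurface of degree `d` contains
no nonconstant entire curve whose Wronskian `W` has at most `k` zeros; again the growth is arbitrary.
(The hypersurface is hyperbolic if and only if it contains no nonconstant entire curve at all.)

The same holds for general intersections of hypersurfaces and for the complements of general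
hypersurfaces in them, with the additional term `N₁(Q(f), r)`, where `Q = 0` is the boundary, if `f` is
allowed to meet the boundary.

Proof. If there were no uniform constant for the family of **all** varieties given by equations of
bounded degree which contain no images of the multiplicative group of degree at most `k`, for every
`k`, then there would be a sequence of such varieties and of curves `f` in them for which `T(r)` is
large compared with the right side. In the ultraproduct of the fields of meromorphic functions the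
curves give one point, which is a solution of iterated linear differential equations over a field of
small functions, and which lies on a family of punctured lines by the library `Pool.Agent.N131.SU`
(Frobenius factorization and differential Galois theory). The family is specialized to one curve over
the complex numbers; since the ultrapower of the complex numbers is isomorphic to the field of complex
numbers, this curve gives a sequence of morphisms of the multiplicative group of bounded degree to
almost all varieties of the sequence, a contradiction. So there is a dichotomy, uniform in the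
**variety** (`Pool.Agent.U178.WF.dich_fin`): morphisms of the multiplicative group of degree at most `B`
or the inequality with the constant `C`. The uniform theorems of the starting library
(`MP_160ed4_ag.UniformSpecialSet`, `MP_dc0411_ag.UniformRamification`) are for one fixed variety.
General intersections and complements contain no such morphisms of degree at most `B` (library
`Pool.Agent.V1153.GH`).

For the second part, the inequality shows that the curve is rational, of a degree bounded in terms of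
`C` and `k`.
-/

set_option autoImplicit false

namespace Pool.Agent.Results.MP_b509a1_ag.WronskianInequality

open MeasureTheory MvPolynomial Pool.Agent.V1153.UG Pool.Agent.U178.WF

variable {n : ℕ}

/-- The characteristic function of the curve with the homogeneous coordinates `f`: the mean of the
logarithm of the maximum norm over the circle of the radius `r`. -/
noncomputable def T (f : Fin (n + 1) → ℂ → ℂ) (r : ℝ) : ℝ :=
  Real.circleAverage (fun z => Real.log ‖fun j => f j z‖) 0 r

/-- The counting function of the zeros of `h`; every zero is counted once. -/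
noncomputable def N₁ (h : ℂ → ℂ) (r : ℝ) : ℝ :=
  ∑ᶠ z ∈ {z : ℂ | h z = 0 ∧ ‖z‖ ≤ r}, if z = 0 then Real.log r else Real.log (r / ‖z‖)

/-- The Wronskian determinant. -/
noncomputable def W {m : ℕ} (g : Fin m → ℂ → ℂ) (z : ℂ) : ℂ :=
  Matrix.det (Matrix.of fun i j : Fin m => iteratedDeriv i (g j) z)

/-- The homogeneous coordinates of an entire curve: entire functions without common zeros. -/
structure EntireCurve (f : Fin (n + 1) → ℂ → ℂ) : Prop where
  hol : ∀ j, Differentiable ℂ (f j)
  ne : ∀ z, ∃ j, f j z ≠ 0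

/-- `g` is a basis of the linear span of the functions `f`. -/
structure BasisOf (f : Fin (n + 1) → ℂ → ℂ) {m : ℕ} (g : Fin m → ℂ → ℂ) : Prop where
  ind : LinearIndependent ℂ g
  span : Submodule.span ℂ (Set.range g) = Submodule.span ℂ (Set.range f)

/-- The curve is constant. -/
def ConstantCurve (f : Fin (n + 1) → ℂ → ℂ) : Prop :=
  ∀ z, ∃ c : ℂ, ∀ j, f j z = c * f j 0

theorem N₁_eq {h : ℂ → ℂ} {r : ℝ} (hr : 1 ≤ r) (hfin : {z : ℂ | h z = 0 ∧ ‖z‖ ≤ r}.Finite) :
    N₁ h r = N131.SR.Nb h r := by
  classical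
  have hF : ∀ z, z ∈ hfin.toFinset ↔ h z = 0 ∧ ‖z‖ ≤ r := fun z => by
    rw [Set.Finite.mem_toFinset]
    rfl
  rw [N131.SR.Nb_eq r hfin.toFinset hF]
  unfold N₁
  rw [finsum_mem_eq_finite_toFinset_sum _ hfin]
  have h1 : ∀ z ∈ hfin.toFinset, (if z = 0 then Real.log r else Real.log (r / ‖z‖)) =
      Real.log (r * ‖z‖⁻¹) + if z = 0 then Real.log r else 0 := by
    intro z _
    by_cases h : z = 0
    · simp [h]
    · simp [h, div_eq_mul_inv]
  rw [Finset.sum_congr rfl h1, Finset.sum_add_distrib, Finset.sum_ite_eq']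
  congr 1
  by_cases h0 : h 0 = 0
  · rw [if_pos ((hF 0).2 ⟨h0, by rw [norm_zero]; linarith⟩),
      Set.indicator_of_mem (show (0 : ℂ) ∈ {z : ℂ | h z = 0} from h0)]
    simp
  · rw [if_neg fun h2 => h0 ((hF 0).1 h2).1,
      Set.indicator_of_notMem (show (0 : ℂ) ∉ {z : ℂ | h z = 0} from h0)]
    simp

/-- the curve in the notation of the proof -/
noncomputable def crv {f : Fin (n + 1) → ℂ → ℂ} (hf : EntireCurve f) {m : ℕ}
    {g : Fin m → ℂ → ℂ} (hg : BasisOf f g) : N131.SU.Crv n n m 1 :=
  ⟨f, X, g, ⟨hf.hol, one_pos, fun j => isHomogeneous_X ℂ j, fun z => by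
    obtain ⟨j, hj⟩ := hf.ne z
    refine ⟨j, ?_⟩
    change eval (fun k => f k z) (X j) ≠ 0
    rwa [eval_X], hg.ind, hg.span⟩⟩

theorem crv_f {f : Fin (n + 1) → ℂ → ℂ} (hf : EntireCurve f) {m : ℕ}
    {g : Fin m → ℂ → ℂ} (hg : BasisOf f g) : (crv hf hg).f = f := by
  funext j z
  change eval (fun k => f k z) (X j) = _
  rw [eval_X]

theorem N₁_nonneg {h : ℂ → ℂ} {r : ℝ} (hr : 1 ≤ r) : 0 ≤ N₁ h r := by
  unfold N₁
  apply finsum_nonneg
  intro z
  apply finsum_nonneg
  rintro ⟨-, hz⟩
  split_ifs with h0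
  · exact Real.log_nonneg hr
  · apply Real.log_nonneg
    rw [le_div_iff₀ (norm_pos_iff.2 h0), one_mul]
    exact hz

/-- the dichotomy for entire curves -/
theorem key (n D d : ℕ) : ∃ (B : ℕ) (C : ℝ), 0 ≤ C ∧ ∀ (f : Fin (n + 1) → ℂ → ℂ)
    (_ : EntireCurve f) (m : ℕ) (g : Fin m → ℂ → ℂ) (_ : BasisOf f g)
    (Q : MvPolynomial (Fin (n + 1)) ℂ), Q.IsHomogeneous d →
      (∃ z, eval (fun j => f j z) Q ≠ 0) →
      ∀ S : Set (MvPolynomial (Fin (n + 1)) ℂ), (∀ F ∈ S, ∃ m ≤ D, F.IsHomogeneous m) →
        (∀ F ∈ S, ∀ z, eval (fun j => f j z) F = 0) →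
        (∀ p, ¬ GmBdd (Ideal.span S) Q B p) → ∃ E : Set ℝ, volume E < ⊤ ∧
          ∀ r, 1 ≤ r → r ∉ E → T f r ≤
            C * (N₁ (W g) r + N₁ (fun z => eval (fun j => f j z) Q) r + Real.log r) := by
  obtain ⟨B, C, hBC⟩ := dich_fin n n 1 d D
  obtain ⟨C', hC'0, hC'⟩ := N131.SU.absorb C
  refine ⟨B, C', hC'0, fun f hf m g hg Q hQ hq S hS1 hS2 hS3 => ?_⟩
  have hc := crv_f hf hg
  obtain ⟨E, hE, hb⟩ := hBC m (crv hf hg) Q hQ (by rw [hc]; exact hq) S hS1
    (by rw [hc]; exact hS2) hS3
  rw [hc] at hb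
  refine ⟨E ∪ Set.Icc 1 2, N131.SU.fin_union hE 2, fun r hr hrE => ?_⟩
  have h1 : r ∉ E := fun h => hrE (Or.inl h)
  have h2 : 2 ≤ r := by
    by_contra hcon
    push Not at hcon
    exact hrE (Or.inr ⟨hr, hcon.le⟩)
  have h3 : T f r ≤ C * (N131.SR.Nb (N131.SR.Wr g) r +
      N131.SR.Nb (fun z => eval (fun j => f j z) Q) r + Real.log r +
        Real.posLog (N131.SR.Tf f r)) := hb r hr h1
  obtain ⟨a, b, ha, hb', hgd, hW⟩ := (crv hf hg).D.data
  have e1 : N₁ (W g) r = N131.SR.Nb (N131.SR.Wr g) r :=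
    N₁_eq hr (N131.SR.zeros_finite (N131.SR.Wr_diff hgd) hW r)
  have e2 : N₁ (fun z => eval (fun j => f j z) Q) r =
      N131.SR.Nb (fun z => eval (fun j => f j z) Q) r :=
    N₁_eq hr (N131.SR.zeros_finite (N131.SR.form_diff hf.hol Q) hq r)
  rw [← e1, ← e2] at h3
  exact hC' (T f r) (N₁ (W g) r + N₁ (fun z => eval (fun j => f j z) Q) r) r
    (add_nonneg (N₁_nonneg hr) (N₁_nonneg hr)) h2 h3

/-- Let `d_1, ..., d_q` be degrees and let `Z` be a set of indices with `∑ d_i + |Z| ≥ 2 n + 1`; for
instance `q = 1`, `Z = {1}` and `d_1 ≥ 2 n`: the hypersurfaces of degree `d ≥ 2 m + 2` in the projective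
space of dimension `n = m + 1`, as in the question.

(1) There are a number `C` and a nonzero polynomial `Φ` in the coefficients of `q` forms of these degrees
in `n + 1` variables such that for all forms `F_1, ..., F_q` at which `Φ` does not vanish and for all
entire curves `f` in `{F_i = 0, i ∈ Z}` which are not contained in `F_i = 0` for `i ∉ Z`

`T_f(r) ≤ C (N₁(W, r) + N₁(Q(f), r) + log r)`

for all `r ≥ 1` outside a set of finite measure. Here `W` is the Wronskian determinant of any basis of
the linear span of the coordinates of `f` and `Q` is the product of the `F_i`, `i ∉ Z` (`Q = 1` for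
hypersurfaces).

(2) For every `k` there is a nonzero polynomial `Φ` in the coefficients such that, if `Φ` does not vanish
at `F`, then every entire curve in `{F_i = 0, i ∈ Z}` which does not meet `F_i = 0` for `i ∉ Z`, and
whose Wronskian determinant has at most `k` zeros, is constant. -/
theorem result (n q : ℕ) (d : Fin q → ℕ) (Z : Finset (Fin q))
    (hZ : 2 * n + 1 ≤ ∑ i, d i + Z.card) :
    (∃ (C : ℝ) (Φ : MvPolynomial ((i : Fin q) × {α : Fin (n + 1) →₀ ℕ // α.degree = d i}) ℂ),
      Φ ≠ 0 ∧ ∀ F : Fin q → MvPolynomial (Fin (n + 1)) ℂ, (∀ i, (F i).IsHomogeneous (d i)) →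
        eval (fun x => coeff x.2.1 (F x.1)) Φ ≠ 0 →
        ∀ f : Fin (n + 1) → ℂ → ℂ, EntireCurve f →
          (∀ i ∈ Z, ∀ z, eval (fun j => f j z) (F i) = 0) →
          (∀ i ∉ Z, ∃ z, eval (fun j => f j z) (F i) ≠ 0) →
          ∀ (m : ℕ) (g : Fin m → ℂ → ℂ), BasisOf f g →
            ∃ E : Set ℝ, volume E < ⊤ ∧ ∀ r, 1 ≤ r → r ∉ E →
              T f r ≤ C * (N₁ (W g) r +
                N₁ (fun z => ∏ i ∈ Finset.univ \ Z, eval (fun j => f j z) (F i)) r +
                Real.log r)) ∧
    ∀ k : ℕ, ∃ Φ : MvPolynomial ((i : Fin q) × {α : Fin (n + 1) →₀ ℕ // α.degree = d i}) ℂ,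
      Φ ≠ 0 ∧ ∀ F : Fin q → MvPolynomial (Fin (n + 1)) ℂ, (∀ i, (F i).IsHomogeneous (d i)) →
        eval (fun x => coeff x.2.1 (F x.1)) Φ ≠ 0 →
        ∀ f : Fin (n + 1) → ℂ → ℂ, EntireCurve f →
          (∀ i ∈ Z, ∀ z, eval (fun j => f j z) (F i) = 0) →
          (∀ i ∉ Z, ∀ z, eval (fun j => f j z) (F i) ≠ 0) →
          ∀ (m : ℕ) (g : Fin m → ℂ → ℂ), BasisOf f g → {z : ℂ | W g z = 0}.encard ≤ k →
            ConstantCurve f := by
  classical
  obtain ⟨B, C, hC0, hBC⟩ := key n (∑ i, d i) (∑ i ∈ Finset.univ \ Z, d i)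
  obtain ⟨Φ, hΦ, hgen⟩ := Pool.Agent.V1153.GH.general (n := n) d Z hZ B
  have main : ∀ F : Fin q → MvPolynomial (Fin (n + 1)) ℂ, (∀ i, (F i).IsHomogeneous (d i)) →
        eval (fun x => coeff x.2.1 (F x.1)) Φ ≠ 0 →
        ∀ f : Fin (n + 1) → ℂ → ℂ, EntireCurve f →
          (∀ i ∈ Z, ∀ z, eval (fun j => f j z) (F i) = 0) →
          (∀ i ∉ Z, ∃ z, eval (fun j => f j z) (F i) ≠ 0) →
          ∀ (m : ℕ) (g : Fin m → ℂ → ℂ), BasisOf f g →
            ∃ E : Set ℝ, volume E < ⊤ ∧ ∀ r, 1 ≤ r → r ∉ E →
              T f r ≤ C * (N₁ (W g) r +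
                N₁ (fun z => ∏ i ∈ Finset.univ \ Z, eval (fun j => f j z) (F i)) r +
                Real.log r) := by
    intro F hF hFΦ f hf hin hout m g hg
    have hQ : (∏ i ∈ Finset.univ \ Z, F i).IsHomogeneous (∑ i ∈ Finset.univ \ Z, d i) :=
      IsHomogeneous.prod _ _ _ fun i _ => hF i
    have hq : ∃ z, eval (fun j => f j z) (∏ i ∈ Finset.univ \ Z, F i) ≠ 0 := by
      have h1 : ∀ᶠ z in Filter.codiscrete ℂ, ∀ i ∈ Finset.univ \ Z,
          eval (fun j => f j z) (F i) ≠ 0 := by
        rw [Filter.eventually_all_finset]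
        intro i hi
        exact N131.SR.diff_ne (N131.SR.form_diff hf.hol (F i))
          (hout i (Finset.mem_sdiff.1 hi).2)
      obtain ⟨z, hz⟩ := (Pool.Agent.TH143.EL.codis_ev h1 0).exists
      refine ⟨z, ?_⟩
      rw [map_prod]
      exact Finset.prod_ne_zero_iff.2 hz
    obtain ⟨E, hE, hb⟩ := hBC f hf m g hg (∏ i ∈ Finset.univ \ Z, F i) hQ hq
      {G | ∃ i ∈ Z, G = F i} (by
        rintro G ⟨i, -, rfl⟩
        exact ⟨d i, Finset.single_le_sum (fun _ _ => Nat.zero_le _) (Finset.mem_univ i), hF i⟩)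
      (by
        rintro G ⟨i, hi, rfl⟩
        exact hin i hi) (hgen F hF hFΦ)
    refine ⟨E, hE, fun r hr hrE => ?_⟩
    have h1 := hb r hr hrE
    simp only [map_prod] at h1
    exact h1
  refine ⟨⟨C, Φ, hΦ, main⟩, fun k => ?_⟩
  obtain ⟨Ψ, hΨ, hgen2⟩ := Pool.Agent.V1153.GH.general (n := n) d Z hZ
    ⌈(n + 1) * (C * (k + 1))⌉₊
  refine ⟨Φ * Ψ, mul_ne_zero hΦ hΨ, fun F hF hFΦ f hf hin hout m g hg hk => ?_⟩
  rw [map_mul] at hFΦ
  obtain ⟨E, hE, hb⟩ := main F hF (left_ne_zero_of_mul hFΦ) f hf hin
    (fun i hi => ⟨0, hout i hi 0⟩) m g hg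
  have hWf : {z : ℂ | W g z = 0}.Finite := Set.finite_of_encard_le_coe hk
  have hWk : (({z : ℂ | W g z = 0}.ncard : ℕ) : ℝ) ≤ k := by
    have h1 : ({z : ℂ | W g z = 0}.ncard : ℕ∞) ≤ k := by
      rw [hWf.cast_ncard_eq]
      exact hk
    exact_mod_cast h1
  obtain ⟨c, hc⟩ := N131.SU.Nn_le hWf
  have hQ0 : ∀ z, ∏ i ∈ Finset.univ \ Z, eval (fun j => f j z) (F i) ≠ 0 := fun z =>
    Finset.prod_ne_zero_iff.2 fun i hi => hout i (Finset.mem_sdiff.1 hi).2 z
  have hN0 : ∀ r, N₁ (fun z => ∏ i ∈ Finset.univ \ Z, eval (fun j => f j z) (F i)) r = 0 := by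
    intro r
    unfold N₁
    have h1 : {z : ℂ | ∏ i ∈ Finset.univ \ Z, eval (fun j => f j z) (F i) = 0 ∧ ‖z‖ ≤ r} = ∅ := by
      ext z
      simp only [Set.mem_setOf_eq, Set.mem_empty_iff_false, iff_false, not_and]
      exact fun h => absurd h (hQ0 z)
    rw [h1, finsum_mem_empty]
  obtain ⟨p, hp0, hpf, hpd⟩ := Rat.exists_rat hf.hol hf.ne hE (A := C * (k + 1)) (B := C * c)
    fun r hr hrE => by
      have h1 := hb r hr hrE
      rw [hN0, add_zero] at h1
      have h2 : N₁ (W g) r ≤ {z : ℂ | W g z = 0}.ncard * Real.log r + c := hc r hr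
      have h3 := Real.log_nonneg hr
      have h4 : N₁ (W g) r + Real.log r ≤ (k + 1) * Real.log r + c := by
        nlinarith
      calc N131.SR.Tf f r ≤ C * (N₁ (W g) r + Real.log r) := h1
        _ ≤ C * ((k + 1) * Real.log r + c) := mul_le_mul_of_nonneg_left h4 hC0
        _ = C * (k + 1) * Real.log r + C * c := by ring
  by_contra hnc
  apply hgen2 F hF (right_ne_zero_of_mul hFΦ) p
  have hval : ∀ (G : MvPolynomial (Fin (n + 1)) ℂ) (m : ℕ), G.IsHomogeneous m → ∀ z,
      (eval (fun j => f j z) G = 0 ↔ (aeval p G).eval z = 0) := by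
    intro G m hG z
    obtain ⟨a, ha, haf⟩ := hpf z
    have h1 : (fun j => f j z) = fun j => a * (p j).eval z := funext haf
    have h2 : (aeval p G).eval z = eval (fun j => (p j).eval z) G := by
      have h3 := MvPolynomial.comp_aeval_apply (f := p) (Polynomial.aeval z) G
      simp only [Polynomial.coe_aeval_eq_eval] at h3
      rw [h3, MvPolynomial.aeval_eq_eval]
    rw [h1, Pool.Agent.Y377.IL.eval_scale hG, mul_eq_zero, or_iff_right (pow_ne_zero _ ha), h2]
  refine ⟨fun j => ?_, fun G hG _ => ?_, ?_, ?_⟩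
  · have h1 := hpd j
    exact Nat.le_of_lt_succ (by
      have h2 := Nat.le_ceil ((n + 1) * (C * (k + 1)))
      have h3 : ((p j).natDegree : ℝ) ≤ ⌈((n : ℝ) + 1) * (C * (k + 1))⌉₊ := h1.trans h2
      have h4 : (p j).natDegree ≤ ⌈((n : ℝ) + 1) * (C * (k + 1))⌉₊ := by exact_mod_cast h3
      omega)
  · have h1 : Ideal.span {G | ∃ i ∈ Z, G = F i} ≤ RingHom.ker (aeval p :
        MvPolynomial (Fin (n + 1)) ℂ →ₐ[ℂ] Polynomial ℂ).toRingHom := by
      rw [Ideal.span_le]
      rintro G ⟨i, hi, rfl⟩
      change aeval p (F i) = 0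
      apply Polynomial.funext
      intro z
      rw [Polynomial.eval_zero]
      exact (hval (F i) (d i) (hF i) z).1 (hin i hi z)
    exact h1 hG
  · have h1 : ∀ z, (aeval p (∏ i ∈ Finset.univ \ Z, F i)).eval z ≠ 0 := by
      intro z h2
      apply hQ0 z
      rw [← map_prod]
      exact (hval _ _ (IsHomogeneous.prod _ _ _ fun i _ => hF i) z).2 h2
    have h2 : (aeval p (∏ i ∈ Finset.univ \ Z, F i)).degree = 0 := by
      by_contra h3
      obtain ⟨z, hz⟩ := IsAlgClosed.exists_root _ h3
      exact h1 z hz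
    obtain ⟨a, ha⟩ : ∃ a, aeval p (∏ i ∈ Finset.univ \ Z, F i) = Polynomial.C a :=
      ⟨_, Polynomial.eq_C_of_degree_le_zero h2.le⟩
    refine ⟨a, 0, ?_, by rw [ha, pow_zero, mul_one]⟩
    rintro rfl
    apply h1 0
    rw [ha, Polynomial.eval_C]
  · by_contra hcon
    push Not at hcon
    apply hnc
    intro z
    obtain ⟨l, hl⟩ := hp0 0
    obtain ⟨a, ha, haf⟩ := hpf z
    obtain ⟨b, hb', hbf⟩ := hpf 0
    refine ⟨a * (p l).eval z / (b * (p l).eval 0), fun j => ?_⟩
    have h1 := hcon z 0 j l
    rw [haf, hbf]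
    field_simp
    linear_combination h1

end Pool.Agent.Results.MP_b509a1_ag.WronskianInequality
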